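import Pool.Agent.Helper98.EY.StmtsC

/-!
# TRANS: two streaming transfers
-/

namespace Pool.Agent.Helper98.EX

open Finset

variable {N : ℕ}

theorem trans_RR_nonneg {r l : ℕ → ℝ} (hA : Adm N r l) {z x : ℕ} (hx : x < N) :
    0 ≤ RR r l z x := by
  unfold RR
  apply Finset.prod_nonneg
  intro b hb
  rw [Finset.mem_Ioc] at hb
  obtain ⟨h1, _, h3, _⟩ := hA b (by omega) (by omega)
  exact div_nonneg h3 h1.le

theorem trans_atl_nonneg {r l : ℕ → ℝ} (hA : Adm N r l) {η0 : ℝ} (h0 : 0 ≤ η0) (w : ℕ) {y : ℕ}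
    (hy : y + 1 < N) : 0 ≤ atl r l η0 w y := by
  unfold atl
  apply Finset.sum_nonneg
  intro d _
  obtain ⟨h1, _, _, _⟩ := hA (y + 1) (by omega) hy
  have h2 := trans_RR_nonneg hA (z := y - d) (x := y) (by omega)
  positivity

theorem trans_adm_mirr {r l : ℕ → ℝ} (hA : Adm N r l) : Adm N (mirr N r) (mirr N l) := by
  intro x h1 h2
  exact hA (N - x) (by omega) (by omega)

/-- partial sums of the weights -/
theorem trans_sum {r l : ℕ → ℝ} (hA : Adm N r l) {η0 : ℝ} (h0 : 0 ≤ η0) (w a b : ℕ)
    (hb : b ≤ N - 1) :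
    ∑ y ∈ Finset.Ico a b, atl r l η0 w y ≤ ∑ y ∈ Finset.range (N - 1), atl r l η0 w y := by
  apply Finset.sum_le_sum_of_subset_of_nonneg
  · intro y hy
    rw [Finset.mem_Ico] at hy
    rw [Finset.mem_range]
    omega
  · intro y hy _
    rw [Finset.mem_range] at hy
    exact trans_atl_nonneg hA h0 w (by omega)

theorem trans_sum_nonneg {r l : ℕ → ℝ} (hA : Adm N r l) {η0 : ℝ} (h0 : 0 ≤ η0) (w : ℕ) :
    0 ≤ ∑ y ∈ Finset.range (N - 1), atl r l η0 w y := by
  apply Finset.sum_nonneg
  intro y hy
  rw [Finset.mem_range] at hy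
  exact trans_atl_nonneg hA h0 w (by omega)

/-- frozen sites do not change -/
theorem trans_frozen (hLOC : ST_LOC) {r l : ℕ → ℝ} (hA : Adm N r l) (σ : ℕ → Finset ℕ) (m : ℕ)
    (s : Finset ℕ) (hs : ∀ x ∈ s, ∀ i, x ∉ σ i ∧ x + 1 ∉ σ i) (η : Cfg N) :
    pr r l σ m (⋃ x ∈ s, {ξ : Cfg N | occ ξ x ≠ occ η x}) η ≤ 0 := by
  refine (pr_biUnion hA σ m s _ η).trans (le_of_eq ?_)
  apply Finset.sum_eq_zero
  intro x hx
  exact hLOC.1 N r l σ m x η (hs x hx)

/-- the heights of the final state -/
theorem trans_heights {k q w : ℕ} (_h1 : 3 * w ≤ q) (h2 : 2 * q ≤ k) (h3 : 2 * q + k ≤ N)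
    (ξ : Cfg N) (hk : ht ξ 0 = k) (he : ∀ i, i < q - w → occ ξ i = false)
    (hf : ∀ i, N - q + w ≤ i → i < N → occ ξ i = true) (y : ℕ) (hy : y ≤ N) :
    min k (min (N - y) ((k - y) + (q - w))) ≤ ht ξ y := by
  have hempty : ∀ d, d ≤ q - w → ht ξ d = k := by
    intro d
    induction d with
    | zero => intro _; exact hk
    | succ d ih =>
      intro hd
      have h4 := ih (by omega)
      have h5 := he d (by omega)
      rw [not_occ_iff_ht ξ (by omega : d < N)] at h5
      omega
  have hfull : ∀ d, d ≤ q - w → ht ξ (N - d) = d := by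
    intro d
    induction d with
    | zero => intro _; rw [ht_ge (by omega)]
    | succ d ih =>
      intro hd
      have h4 := ih (by omega)
      have h5 := hf (N - (d + 1)) (by omega) (by omega)
      rw [occ_iff_ht ξ (by omega : N - (d + 1) < N)] at h5
      have e : N - (d + 1) + 1 = N - d := by omega
      rw [e] at h5
      omega
  by_cases hyk : y < k
  · by_cases hyq : y ≤ q - w
    · rw [hempty y hyq]
      omega
    · have h6 := hempty (q - w) le_rfl
      have h7 := ht_le_sub ξ (show q - w ≤ y by omega)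
      omega
  · by_cases hyN : N - y ≤ q - w
    · have h8 := hfull (N - y) hyN
      have e : N - (N - y) = y := by omega
      rw [e] at h8
      omega
    · have h8 := hfull (q - w) le_rfl
      have h9 := ht_anti ξ (show y ≤ N - (q - w) by omega)
      omega

theorem st_TRANS (hST : ST_STREAM) (hLOC : ST_LOC) : ST_TRANS := by
  intro γ η0 Cs hγ0 hγ1 hη0 hη1 hCs
  obtain ⟨N0, hN0⟩ := hST γ 1 η0 Cs hγ0 hγ1 one_pos le_rfl hη0 hη1 hCs
  refine ⟨N0, ?_⟩
  intro N k q w r l as ell hN hwq hqk hkN hE1 hE2 has hell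
  have hw1 := hE1.w1
  have hA := hE1.adm
  have hA' := trans_adm_mirr hA
  have h0 : (0 : ℝ) ≤ η0 := hη0.le
  obtain ⟨σ1, m1, hσ1, hm1, hp1⟩ := hN0 N r l (k - q) (N - q) N w q as ell hN hE1 (by omega)
    (by omega) (by omega) has hell
  obtain ⟨σ2, m2, hσ2, hm2, hp2⟩ := hN0 N r l 0 q k w q as ell hN hE2 (by omega)
    (by omega) (by omega) has hell
  refine ⟨cat m1 σ1 σ2, m1 + m2, ?_, ?_, ?_⟩
  · intro i x hx
    unfold cat at hx
    rw [full, Finset.mem_Ico]
    split_ifs at hx with h
    · have := hσ1 i hx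
      rw [Finset.mem_Ioo] at this
      omega
    · have := hσ2 (i - m1) hx
      rw [Finset.mem_Ioo] at this
      omega
  · have e1 : N - N = 0 := by omega
    have e2 : N - (N - q) = q := by omega
    rw [e1, e2] at hm1
    have s1 := trans_sum hA h0 w (k - q) (N - q) (by omega)
    have s2 := trans_sum hA' h0 w 0 q (by omega)
    have s3 := trans_sum hA h0 w 0 q (by omega)
    have s4 := trans_sum hA' h0 w (N - k) (N - q) (by omega)
    have p1 := trans_sum_nonneg hA h0 w
    have p2 := trans_sum_nonneg hA' h0 w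
    have hNn : (0 : ℝ) ≤ N := Nat.cast_nonneg N
    have b1 : max (∑ y ∈ Finset.Ico (k - q) (N - q), atl r l η0 w y)
        (∑ y ∈ Finset.Ico 0 q, atl (mirr N r) (mirr N l) η0 w y) ≤
        ∑ y ∈ Finset.range (N - 1), atl r l η0 w y +
          ∑ y ∈ Finset.range (N - 1), atl (mirr N r) (mirr N l) η0 w y :=
      max_le (by linarith) (by linarith)
    have b2 : max (∑ y ∈ Finset.Ico 0 q, atl r l η0 w y)
        (∑ y ∈ Finset.Ico (N - k) (N - q), atl (mirr N r) (mirr N l) η0 w y) ≤
        ∑ y ∈ Finset.range (N - 1), atl r l η0 w y +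
          ∑ y ∈ Finset.range (N - 1), atl (mirr N r) (mirr N l) η0 w y :=
      max_le (by linarith) (by linarith)
    rw [Finset.sum_add_distrib]
    push_cast
    set SS := ∑ y ∈ Finset.range (N - 1), atl r l η0 w y +
          ∑ y ∈ Finset.range (N - 1), atl (mirr N r) (mirr N l) η0 w y with hSS
    have c1 : (m1 : ℝ) ≤ 2 * N * (8 * (SS + (3 * q + 4) * ell)) := by
      refine hm1.trans ?_
      have e3 : ((1 : ℝ) + 1) ^ 3 = 8 := by norm_num
      rw [e3]
      apply mul_le_mul_of_nonneg_left _ (by positivity)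
      linarith
    have c2 : (m2 : ℝ) ≤ 2 * N * (8 * (SS + (3 * q + 4) * ell)) := by
      refine hm2.trans ?_
      have e3 : ((1 : ℝ) + 1) ^ 3 = 8 := by norm_num
      rw [e3]
      apply mul_le_mul_of_nonneg_left _ (by positivity)
      linarith
    linarith
  · have hkN' : k ≤ N := by omega
    have hNp : (0 : ℝ) ≤ (N : ℝ) ^ (-5 : ℝ) := by positivity
    have hset : {ξ : Cfg N | ¬ ∀ y, y ≤ N → min k (min (N - y) ((k - y) + (q - w))) ≤ ht ξ y} =
        ({ξ : Cfg N | ∀ y, y ≤ N → min k (min (N - y) ((k - y) + (q - w))) ≤ ht ξ y})ᶜ := rfl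
    rw [hset, two_mul]
    refine pr_cat_fail hA (k := k) σ1 σ2 m1 m2
      (A := {ξ : Cfg N | startw 0 k q q ξ ∧ ∀ i, N - q + w ≤ i → i < N → occ ξ i = true})
      (ht_bot_zero hkN') ?_ hNp ?_
    · -- first stage
      have hsub : ({ξ : Cfg N | startw 0 k q q ξ ∧
          ∀ i, N - q + w ≤ i → i < N → occ ξ i = true})ᶜ ⊆
          (sorted (k - q) (N - q - w) (N - q + w) N : Set (Cfg N))ᶜ ∪
          ⋃ x ∈ Finset.range (k - q), {ξ : Cfg N | occ ξ x ≠ occ (bot N k) x} := by
        intro ξ hξ
        by_contra hc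
        rw [Set.mem_union, not_or, Set.mem_compl_iff, not_not] at hc
        obtain ⟨⟨g1, g2⟩, g3⟩ := hc
        apply hξ
        refine ⟨?_, g2⟩
        intro i _ hi
        have g4 : i < k - q → occ ξ i = true := by
          intro hik
          by_contra hne
          apply g3
          rw [Set.mem_iUnion₂]
          refine ⟨i, Finset.mem_range.mpr hik, ?_⟩
          intro heq
          rw [heq] at hne
          exact hne ((occ_bot k).mpr ⟨by omega, by omega⟩)
        constructor
        · intro ho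
          by_contra hcon
          have g5 := g1 i (by omega) (by omega)
          rw [g5] at ho
          exact absurd ho (by decide)
        · intro ho
          exact g4 (by omega)
      refine (pr_mono hA σ1 m1 hsub _).trans ((pr_union hA σ1 m1 _ _ _).trans ?_)
      have hst : startw (k - q) N (N - q) q (bot N k) := by
        intro i h4 h5
        rw [occ_bot]
        omega
      have f1 := hp1 (bot N k) hst
      have f2 := trans_frozen hLOC hA σ1 m1 (Finset.range (k - q)) (by
        intro x hx i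
        rw [Finset.mem_range] at hx
        constructor
        · intro h
          have := hσ1 i h
          rw [Finset.mem_Ioo] at this
          omega
        · intro h
          have := hσ1 i h
          rw [Finset.mem_Ioo] at this
          omega) (bot N k)
      linarith
    · -- second stage
      intro ξ hξk hξ
      obtain ⟨hs, hf⟩ := hξ
      have hsub : ∀ ζ : Cfg N, ht ζ 0 = k →
          ζ ∈ ({ξ : Cfg N | ∀ y, y ≤ N → min k (min (N - y) ((k - y) + (q - w))) ≤ ht ξ y})ᶜ →
          ζ ∈ (sorted 0 (q - w) (q + w) k : Set (Cfg N))ᶜ ∪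
          ⋃ x ∈ Finset.Ico (N - q + w) N, {ζ : Cfg N | occ ζ x ≠ occ ξ x} := by
        intro ζ hζk hζ
        by_contra hc
        rw [Set.mem_union, not_or, Set.mem_compl_iff, not_not] at hc
        obtain ⟨⟨g1, _⟩, g3⟩ := hc
        apply hζ
        intro y hy
        refine trans_heights hwq hqk hkN ζ hζk (fun i hi => g1 i (by omega) hi) ?_ y hy
        intro i hi1 hi2
        by_contra hne
        apply g3
        rw [Set.mem_iUnion₂]
        refine ⟨i, Finset.mem_Ico.mpr ⟨hi1, hi2⟩, ?_⟩
        intro heq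
        rw [heq] at hne
        exact hne (hf i hi1 hi2)
      refine (pr_mono_sector hA σ2 m2 hsub hξk).trans ((pr_union hA σ2 m2 _ _ _).trans ?_)
      have f1 := hp2 ξ hs
      have f2 := trans_frozen hLOC hA σ2 m2 (Finset.Ico (N - q + w) N) (by
        intro x hx i
        rw [Finset.mem_Ico] at hx
        constructor
        · intro h
          have := hσ2 i h
          rw [Finset.mem_Ioo] at this
          omega
        · intro h
          have := hσ2 i h
          rw [Finset.mem_Ioo] at this
          omega) ξ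
      linarith

end Pool.Agent.Helper98.EX
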